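import Pool.Agent.Helper89.Vol5.Goals

/-! # MP_cd13d2_co, packet V58-D5: volumes and minors -/

set_option autoImplicit false

namespace Pool.Agent.Helper7.Vol5.PkD5

open MeasureTheory Set Pool.Agent.Helper86.Poly Pool.Agent.Helper89.Vol5

theorem exists_perm (i j : Fin 8) (h : i ≠ j) : ∃ σ : Equiv.Perm (Fin 8), σ 6 = i ∧ σ 7 = j := by
  have h1 : (Equiv.swap 6 i) j ≠ 6 := by
    intro h2
    have h3 : (Equiv.swap 6 i) ((Equiv.swap 6 i) j) = (Equiv.swap 6 i) 6 := congrArg _ h2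
    rw [Equiv.swap_apply_self, Equiv.swap_apply_left] at h3
    exact h h3.symm
  refine ⟨Equiv.swap 6 i * Equiv.swap 7 ((Equiv.swap 6 i) j), ?_, ?_⟩
  · rw [Equiv.Perm.mul_apply, Equiv.swap_apply_of_ne_of_ne (by decide) h1.symm,
      Equiv.swap_apply_left]
  · rw [Equiv.Perm.mul_apply, Equiv.swap_apply_left, Equiv.swap_apply_self]

theorem br_eq (p q r s t u : E 5) :
    Matrix.det (Matrix.of fun i j : Fin 5 => (![p, q, r, s, t, u] : Fin 6 → E 5) i.succ j -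
      (![p, q, r, s, t, u] : Fin 6 → E 5) 0 j) = br p q r s t u := by
  unfold br dt
  congr 1
  ext i j
  fin_cases i <;> fin_cases j <;> rfl

theorem set_eq (x : Fin 8 → E 5) (σ : Equiv.Perm (Fin 8)) :
    range (![x (σ 0), x (σ 1), x (σ 2), x (σ 3), x (σ 4), x (σ 5)] : Fin 6 → E 5) =
      x '' {k | k ≠ σ 6 ∧ k ≠ σ 7} := by
  ext z
  constructor
  · rintro ⟨m, rfl⟩
    fin_cases m
    · exact ⟨σ 0, ⟨fun h => absurd (σ.injective h) (by decide), fun h => absurd (σ.injective h) (by decide)⟩, rfl⟩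
    · exact ⟨σ 1, ⟨fun h => absurd (σ.injective h) (by decide), fun h => absurd (σ.injective h) (by decide)⟩, rfl⟩
    · exact ⟨σ 2, ⟨fun h => absurd (σ.injective h) (by decide), fun h => absurd (σ.injective h) (by decide)⟩, rfl⟩
    · exact ⟨σ 3, ⟨fun h => absurd (σ.injective h) (by decide), fun h => absurd (σ.injective h) (by decide)⟩, rfl⟩
    · exact ⟨σ 4, ⟨fun h => absurd (σ.injective h) (by decide), fun h => absurd (σ.injective h) (by decide)⟩, rfl⟩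
    · exact ⟨σ 5, ⟨fun h => absurd (σ.injective h) (by decide), fun h => absurd (σ.injective h) (by decide)⟩, rfl⟩
  · rintro ⟨k, ⟨h1, h2⟩, rfl⟩
    obtain ⟨m, rfl⟩ := σ.surjective k
    fin_cases m
    · exact ⟨0, rfl⟩
    · exact ⟨1, rfl⟩
    · exact ⟨2, rfl⟩
    · exact ⟨3, rfl⟩
    · exact ⟨4, rfl⟩
    · exact ⟨5, rfl⟩
    · exact absurd rfl h1
    · exact absurd rfl h2

theorem thm (hSV : G_SV) (h3 : G_D3) (h4 : G_D4) : G_D5 := by
  intro x i j hij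
  obtain ⟨σ, rfl, rfl⟩ := exists_perm i j hij
  have e1 := hSV 5 ![x (σ 0), x (σ 1), x (σ 2), x (σ 3), x (σ 4), x (σ 5)]
  rw [br_eq, set_eq] at e1
  have e2 : ((5 : ℕ).factorial : ENNReal) = 120 := by
    norm_num [Nat.factorial]
  rw [e2] at e1
  rw [e1]
  have e3 : Dt (x ∘ σ) 6 7 = br (x (σ 0)) (x (σ 1)) (x (σ 2)) (x (σ 3)) (x (σ 4)) (x (σ 5)) :=
    (h4 (x ∘ σ)).2.2.2.2.2
  have e4 := h3 x σ 6 7
  rw [e3] at e4
  rw [e4, abs_mul]
  have e5 : |((Equiv.Perm.sign σ : ℤ) : ℝ)| = 1 := by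
    rcases Int.units_eq_one_or (Equiv.Perm.sign σ) with h | h <;> rw [h] <;> simp
  rw [e5, one_mul]

end Pool.Agent.Helper7.Vol5.PkD5
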